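import Pool.Agent.Run7.h323.OD.AG
import Pool.Agent.H397R2.PP.B0
import Pool.Agent.W97.TW.Delta
import Pool.Agent.W97.TW.Hecke

/-!
The discriminant: its odd part is a polynomial in `u` times `w ^ 12`, the Hecke relations, and the
connection with the discriminant of Mathlib.
-/

set_option autoImplicit false

namespace Run7.h323.OD

open PowerSeries H809.OD Pool.Agent.Helper308.QS Pool.Agent.V11172.Ds Pool.Agent.H397R2.PP

/-! ### the coefficients -/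

theorem dvd_pow_sub {A : Type*} [CommRing A] {x a b : A} (h : x ∣ a - b) (n : ℕ) :
    x ∣ a ^ n - b ^ n := h.trans (sub_dvd_pow_sub_pow a b n)

theorem tau_eq (n : ℕ) : tau n = coeff n Dz := by
  have h1 : (X : ℤ⟦X⟧) ^ (n + 1) ∣ E1 ^ 24 - ((Pool.Agent.Y246.Z700.PP n : Polynomial ℤ) : ℤ⟦X⟧) ^ 24 :=
    dvd_pow_sub (E1_dvd n) 24
  have h2 : (X : ℤ⟦X⟧) ^ (n + 1) ∣
      Dz - X * ((Pool.Agent.Y246.Z700.PP n : Polynomial ℤ) : ℤ⟦X⟧) ^ 24 := by
    have e : Dz - X * ((Pool.Agent.Y246.Z700.PP n : Polynomial ℤ) : ℤ⟦X⟧) ^ 24 =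
        X * (E1 ^ 24 - ((Pool.Agent.Y246.Z700.PP n : Polynomial ℤ) : ℤ⟦X⟧) ^ 24) := by
      unfold Dz E1
      ring
    rw [e]
    exact h1.mul_left _
  have h3 := (X_pow_dvd_iff.1 h2) n (Nat.lt_succ_self n)
  rw [map_sub, sub_eq_zero] at h3
  rw [h3, tau]
  have e : (X : ℤ⟦X⟧) * ((Pool.Agent.Y246.Z700.PP n : Polynomial ℤ) : ℤ⟦X⟧) ^ 24 =
      ((Polynomial.X * ∏ m ∈ Finset.range n, (1 - Polynomial.X ^ (m + 1)) ^ 24 :
        Polynomial ℤ) : ℤ⟦X⟧) := by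
    rw [Finset.prod_pow, Polynomial.coe_mul, Polynomial.coe_pow, Polynomial.coe_X]
    rfl
  rw [e, Polynomial.coeff_coe]

theorem disc_eq (n : ℕ) :
    (UpperHalfPlane.qExpansion 1 CuspForm.discriminant).coeff n = (tau n : ℂ) := by
  have h := congrArg (coeff n) qExpansion_discriminant
  rw [coeff_map] at h
  rw [tau_eq]
  exact h

/-! ### the Hecke relations -/

theorem A_eq (n : ℕ) :
    Pool.Agent.W97.TW.A Pool.Agent.W97.TW.deltaForm n = (tau n : ℂ) := disc_eq n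

theorem tau_one : tau 1 = 1 := by
  have h := disc_eq 1
  have h2 : (UpperHalfPlane.qExpansion 1 CuspForm.discriminant).coeff 1 = (1 : ℂ) :=
    ModularForm.discriminant_qExpansion_coeff_one
  rw [h2] at h
  exact_mod_cast h.symm

theorem hecke_eq (p : ℕ) (hp : p.Prime) (n : ℕ) :
    tau (p * n) = tau p * tau n - if p ∣ n then (p : ℤ) ^ 11 * tau (n / p) else 0 := by
  obtain ⟨a, ha⟩ := Pool.Agent.W97.TW.isNewform_delta.hecke ⟨p, hp⟩
  have key := fun m => Pool.Agent.W97.TW.hecke_rec Pool.Agent.W97.TW.deltaForm hp.pos ha m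
  have hp1 : ¬ p ∣ 1 := fun h => hp.one_lt.ne' (Nat.dvd_one.1 h)
  have h1 := key 1
  have hn := key n
  simp only [Pool.Agent.W97.TW.B, A_eq, if_neg hp1] at h1 hn
  rw [mul_one, tau_one] at h1
  have e : ((p : ℂ) ^ ((12 : ℤ) - 1)) = (p : ℂ) ^ 11 := by
    rw [show (12 : ℤ) - 1 = ((11 : ℕ) : ℤ) by norm_num, zpow_natCast]
  rw [e] at hn
  have ha' : a = (tau p : ℂ) := by
    push_cast at h1
    linear_combination -h1
  rw [ha'] at hn
  have h3 : (tau (p * n) : ℂ) =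
      ((tau p * tau n - if p ∣ n then (p : ℤ) ^ 11 * tau (n / p) else 0 : ℤ) : ℂ) := by
    split_ifs at hn ⊢ with hd
    · push_cast
      linear_combination hn
    · push_cast
      linear_combination hn
  exact_mod_cast h3

/-! ### the odd part -/

theorem Z_aux {A : Type*} [CommRing A] {w u W U n : A} (hW : W = w * (1 - 4 * u))
    (ha : (W * (1 - 8 * U)) ^ 2 = w ^ 2 * (1 - 8 * u))
    (hb : W ^ 2 * (U * (1 - 4 * U)) = w ^ 2 * u ^ 2) (hn : n ^ 2 = w * (1 - 8 * u)) :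
    (w ^ 12 * u * (1 - 4 * u) * (1 - 8 * u) ^ 8) ^ 2 =
      (W ^ 12 * U * (1 - 4 * U) * (1 - 8 * U) ^ 8) * n ^ 24 := by
  calc (w ^ 12 * u * (1 - 4 * u) * (1 - 8 * u) ^ 8) ^ 2
      = (w ^ 2 * (1 - 8 * u)) ^ 4 * (w ^ 2 * u ^ 2) * (w * (1 - 4 * u)) ^ 2 *
        (w * (1 - 8 * u)) ^ 12 := by ring
    _ = ((W * (1 - 8 * U)) ^ 2) ^ 4 * (W ^ 2 * (U * (1 - 4 * U))) * W ^ 2 * (n ^ 2) ^ 12 := by
        rw [ha, hb, hn, hW]
    _ = (W ^ 12 * U * (1 - 4 * U) * (1 - 8 * U) ^ 8) * n ^ 24 := by ring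

theorem b_aux {A : Type*} [CommRing A] {w u W U : A} (hW : W = w * (1 - 4 * u))
    (ha : (W * (1 - 8 * U)) ^ 2 = w ^ 2 * (1 - 8 * u)) :
    16 * (W ^ 2 * (U * (1 - 4 * U))) = 16 * (w ^ 2 * u ^ 2) := by
  have h : 16 * (W ^ 2 * (U * (1 - 4 * U))) = W ^ 2 - (W * (1 - 8 * U)) ^ 2 := by ring
  rw [h, ha, hW]
  ring

theorem ng_aux {A : Type*} [CommRing A] {w u x y : A} (hx : x * (1 - 8 * u) = -u)
    (hy : y = w * (1 - 8 * u)) :
    y ^ 12 * x * (1 - 4 * x) * (1 - 8 * x) ^ 8 =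
      -(w ^ 12 * u * (1 - 4 * u) * (1 - 8 * u) ^ 2) := by
  have h1 : (1 - 8 * x) * (1 - 8 * u) = 1 := by linear_combination (-8) * hx
  have h2 : (1 - 4 * x) * (1 - 8 * u) = 1 - 4 * u := by linear_combination (-4) * hx
  rw [hy]
  calc (w * (1 - 8 * u)) ^ 12 * x * (1 - 4 * x) * (1 - 8 * x) ^ 8
      = w ^ 12 * (x * (1 - 8 * u)) * ((1 - 4 * x) * (1 - 8 * u)) *
        ((1 - 8 * x) * (1 - 8 * u)) ^ 8 * (1 - 8 * u) ^ 2 := by ring
    _ = _ := by rw [h1, h2, hx]; ring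

theorem odd_aux {A : Type*} [CommRing A] (w u : A) :
    w ^ 12 * u * (1 - 4 * u) * (1 - 8 * u) ^ 8 +
      w ^ 12 * u * (1 - 4 * u) * (1 - 8 * u) ^ 2 =
    2 * (w ^ 12 * (u * (1 - 4 * u) * (1 - 8 * u) ^ 2 *
      (1 - 24 * (u * (1 - 4 * u)) + 384 * (u * (1 - 4 * u)) ^ 2 -
        2048 * (u * (1 - 4 * u)) ^ 3))) := by
  ring

theorem aeval_RD (x : ℚ⟦X⟧) : Polynomial.aeval x RD =
    x * (1 - 4 * x) * (1 - 8 * x) ^ 2 *
      (1 - 24 * (x * (1 - 4 * x)) + 384 * (x * (1 - 4 * x)) ^ 2 -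
        2048 * (x * (1 - 4 * x)) ^ 3) := by
  unfold RD
  simp only [map_mul, map_sub, map_add, map_pow, map_one, map_ofNat, Polynomial.aeval_X]

theorem order_eq_one {f : ℚ⟦X⟧} (h0 : coeff 0 f = 0) (h1 : coeff 1 f ≠ 0) : f.order = 1 := by
  have h : f.order = ((1 : ℕ) : ℕ∞) := by
    rw [PowerSeries.order_eq_nat]
    refine ⟨h1, fun i hi => ?_⟩
    have : i = 0 := by omega
    rw [this, h0]
  simpa using h

theorem uniq {Y Z G : ℚ⟦X⟧} (hY : Y ^ 2 = dbl Y * G) (hZ : Z ^ 2 = dbl Z * G)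
    (hG : coeff 0 G ≠ 0) (Y0 : coeff 0 Y = 0) (Y1 : coeff 1 Y = 1) (Z0 : coeff 0 Z = 0)
    (Z1 : coeff 1 Z = 1) : Y = Z := by
  by_contra hne
  have hD : Y - Z ≠ 0 := sub_ne_zero.2 hne
  have h1 : (Y - Z) * (Y + Z) = dbl (Y - Z) * G := by
    have h0 : ∀ {A : Type} [CommRing A] (a b : A), (a - b) * (a + b) = a ^ 2 - b ^ 2 :=
      fun a b => by ring
    rw [h0 Y Z, hY, hZ, map_sub, sub_mul]
  have h2 := congrArg PowerSeries.order h1
  rw [PowerSeries.order_mul, PowerSeries.order_mul] at h2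
  have h3 : (Y + Z).order = 1 := order_eq_one (by rw [map_add, Y0, Z0, add_zero])
    (by rw [map_add, Y1, Z1]; norm_num)
  have h4 : G.order = 0 := by
    have : G.order = ((0 : ℕ) : ℕ∞) := by
      rw [PowerSeries.order_eq_nat]
      exact ⟨hG, fun i hi => absurd hi (Nat.not_lt_zero i)⟩
    simpa using this
  have h5 : (dbl (Y - Z)).order = 2 • (Y - Z).order := by
    unfold dbl
    exact PowerSeries.order_expand 2 two_ne_zero _
  rw [h3, h4, h5, add_zero] at h2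
  obtain ⟨n, hn⟩ := ENat.ne_top_iff_exists.1 (fun h => hD (PowerSeries.order_eq_top.1 h))
  rw [← hn] at h2
  have h6 : n + 1 = 2 * n := by
    have : ((n + 1 : ℕ) : ℕ∞) = ((2 * n : ℕ) : ℕ∞) := by
      push_cast
      rw [h2]
      simp [two_mul]
    exact_mod_cast this
  have h7 : n = 1 := by omega
  have h8 : (Y - Z).order = ((1 : ℕ) : ℕ∞) := by rw [← hn, h7]
  rw [PowerSeries.order_eq_nat] at h8
  apply h8.1
  rw [map_sub, Y1, Z1, sub_self]

/-- `Δ` over `ℚ` -/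
noncomputable def YY : ℚ⟦X⟧ := PowerSeries.map (Int.castRingHom ℚ) Dz

/-- the expression in `w`, `u` -/
noncomputable def ZZ : ℚ⟦X⟧ := w ^ 12 * u * (1 - 4 * u) * (1 - 8 * u) ^ 8

theorem y_aux {A : Type*} [CommRing A] {x p q n : A} (h : p ^ 2 = q * n) :
    (x * p ^ 24) ^ 2 = (x ^ 2 * q ^ 24) * n ^ 24 := by
  calc (x * p ^ 24) ^ 2 = x ^ 2 * (p ^ 2) ^ 24 := by ring
    _ = _ := by rw [h]; ring

theorem YY_eq : YY = X * (PowerSeries.map (Int.castRingHom ℚ) E1) ^ 24 := by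
  unfold YY Dz
  rw [map_mul, map_pow, map_X]
  rfl

theorem YY_sq : YY ^ 2 = dbl YY * (ng phi) ^ 24 := by
  have h := congrArg (PowerSeries.map (Int.castRingHom ℚ)) gauss
  rw [map_pow, map_mul, map_Phi] at h
  have h1 : PowerSeries.map (Int.castRingHom ℚ) (Ek 2 two_ne_zero) =
      dbl (PowerSeries.map (Int.castRingHom ℚ) E1) := by
    unfold Ek dbl
    exact PowerSeries.map_expand 2 two_ne_zero _ _
  rw [h1] at h
  have h2 : dbl YY = X ^ 2 * (dbl (PowerSeries.map (Int.castRingHom ℚ) E1)) ^ 24 := by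
    rw [YY_eq, map_mul, map_pow]
    congr 1
    unfold dbl
    exact PowerSeries.expand_X 2 two_ne_zero
  rw [h2, YY_eq]
  exact y_aux h

theorem two_cancel {a b : ℚ⟦X⟧} (c : ℕ) (hc : c ≠ 0) (h : (c : ℚ⟦X⟧) * a = (c : ℚ⟦X⟧) * b) :
    a = b := by
  have h1 : (c : ℚ⟦X⟧) ≠ 0 := fun h => hc (by
    have h2 := congrArg (constantCoeff (R := ℚ)) h
    rw [map_natCast, map_zero] at h2
    exact_mod_cast h2)
  exact mul_left_cancel₀ h1 h

theorem ng_phi_sq (h : Theta) : (ng phi) ^ 2 = w * (1 - 8 * u) := by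
  rw [← h.ng_w, w, map_pow]

theorem dbl_w (h : Theta) : dbl w = w * (1 - 4 * u) := by
  have h1 := AG1
  rw [ng_phi_sq h] at h1
  have h2 : dbl w = dbl phi ^ 2 := by rw [w, map_pow]
  have h3 : w = phi ^ 2 := rfl
  rw [← h2, ← h3] at h1
  refine two_cancel 2 two_ne_zero ?_
  push_cast
  have : ∀ {A : Type} [CommRing A] (w u W : A), w + w * (1 - 8 * u) = 2 * W →
      2 * W = 2 * (w * (1 - 4 * u)) := fun w u W h => by rw [← h]; ring
  exact this w u (dbl w) h1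

theorem dbl_w' (h : Theta) : (dbl w * (1 - 8 * dbl u)) ^ 2 = w ^ 2 * (1 - 8 * u) := by
  have h1 : dbl w * (1 - 8 * dbl u) = dbl (ng w) := by
    rw [h.ng_w, map_mul, map_sub, map_mul, map_one, map_ofNat]
  have h2 : dbl (ng w) = phi * ng phi := by
    rw [AG2, w, map_pow, map_pow]
  rw [h1, h2, mul_pow, ng_phi_sq h]
  have h3 : w = phi ^ 2 := rfl
  rw [← h3, ← mul_assoc, ← sq]

theorem ZZ_sq (h : Theta) : ZZ ^ 2 = dbl ZZ * (ng phi) ^ 24 := by
  have hW := dbl_w h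
  have ha := dbl_w' h
  have hb : dbl w ^ 2 * (dbl u * (1 - 4 * dbl u)) = w ^ 2 * u ^ 2 := by
    refine two_cancel 16 (by norm_num) ?_
    push_cast
    exact b_aux hW ha
  have e : dbl ZZ = dbl w ^ 12 * dbl u * (1 - 4 * dbl u) * (1 - 8 * dbl u) ^ 8 := by
    rw [ZZ, map_mul, map_mul, map_mul, map_pow, map_pow, map_sub, map_sub, map_mul, map_mul,
      map_one, map_ofNat, map_ofNat]
  rw [e, ZZ]
  exact Z_aux hW ha hb (ng_phi_sq h)

theorem coeff_one_mul_of {a b : ℚ⟦X⟧} (ha : coeff 0 a = 0) (ha1 : coeff 1 a = 1)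
    (hb : coeff 0 b = 1) : coeff 1 (a * b) = 1 := by
  rw [coeff_mul, Finset.Nat.antidiagonal_succ, Finset.sum_cons]
  simp [ha, ha1, hb]

theorem coeff_zero_mul_of {a b : ℚ⟦X⟧} : coeff 0 (a * b) = coeff 0 a * coeff 0 b := by
  simp

theorem ZZ_coeff (h : Theta) : coeff 0 ZZ = 0 ∧ coeff 1 ZZ = 1 := by
  have e : ZZ = u * (w ^ 12 * (1 - 4 * u) * (1 - 8 * u) ^ 8) := by
    unfold ZZ
    ring
  have h0 : coeff 0 (w ^ 12 * (1 - 4 * u) * (1 - 8 * u) ^ 8) = 1 := by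
    have hu : constantCoeff u = 0 := by
      rw [← coeff_zero_eq_constantCoeff_apply]; exact h.u_zero
    have hw : constantCoeff w = 1 := by
      rw [← coeff_zero_eq_constantCoeff_apply]; exact h.w_zero
    rw [coeff_zero_eq_constantCoeff_apply]
    simp [hu, hw]
  rw [e]
  exact ⟨by rw [coeff_zero_mul_of, h.u_zero, zero_mul],
    coeff_one_mul_of h.u_zero h.u_one h0⟩

theorem YY_coeff (n : ℕ) : coeff n YY = (tau n : ℚ) := by
  rw [YY, coeff_map, tau_eq]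
  rfl

theorem tau_zero : tau 0 = 0 := by
  rw [tau_eq, Dz, coeff_zero_eq_constantCoeff_apply, map_mul]
  simp

theorem YY_eq_ZZ (h : Theta) : YY = ZZ := by
  refine uniq YY_sq (ZZ_sq h) ?_ ?_ ?_ (ZZ_coeff h).1 (ZZ_coeff h).2
  · rw [coeff_zero_eq_constantCoeff_apply, map_pow]
    have : constantCoeff (ng phi) = 1 := by
      rw [← coeff_zero_eq_constantCoeff_apply, ng, coeff_rescale, phi, coeff_mk]
      simp
    rw [this]
    norm_num
  · rw [YY_coeff, tau_zero]; simp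
  · rw [YY_coeff, tau_one]; simp

theorem odd_part_eq (h : Theta) :
    (PowerSeries.mk fun n => if Odd n then (tau n : ℚ) else 0) =
      w ^ 12 * Polynomial.aeval u RD := by
  have h1 : ng YY = -(w ^ 12 * u * (1 - 4 * u) * (1 - 8 * u) ^ 2) := by
    rw [YY_eq_ZZ h, ZZ, map_mul, map_mul, map_mul, map_pow, map_pow, map_sub, map_sub, map_mul,
      map_mul, map_one, map_ofNat, map_ofNat]
    exact ng_aux h.ng_u h.ng_w
  have h2 : YY - ng YY = 2 * (w ^ 12 * Polynomial.aeval u RD) := by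
    rw [h1, YY_eq_ZZ h, ZZ, aeval_RD, sub_neg_eq_add]
    exact odd_aux w u
  refine two_cancel 2 two_ne_zero ?_
  push_cast
  rw [← h2]
  ext n
  have e2 : (2 : ℚ⟦X⟧) = C (2 : ℚ) := (map_ofNat _ 2).symm
  rw [e2, coeff_C_mul, coeff_mk, map_sub, ng, coeff_rescale, YY_coeff]
  by_cases ho : Odd n
  · rw [if_pos ho, ho.neg_one_pow]
    ring
  · rw [if_neg ho, (Nat.not_odd_iff_even.1 ho).neg_one_pow]
    ring

theorem delta_holds (h : Theta) : Delta where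
  odd_part := odd_part_eq h
  hecke := hecke_eq
  disc := disc_eq

end Run7.h323.OD
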