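import Pool.Agent.Run7.h809.OD.Stm2
import Pool.Agent.Run7.h323.OD.Delta

/-!
# From the main theorem to Ramanujan's tau function

`tau_log` : the primes `p` with `p ∤ τ(p)` have positive lower logarithmic-weight density;
`tau_count` : they have positive lower relative density among all primes;
`disc_dvd_iff` : `p ∣ τ(p)` in terms of the `q`-expansion of Mathlib's discriminant.
-/

set_option autoImplicit false

open PowerSeries H809.OD

namespace Run7.h323.OD

theorem hecke_dvd (hd : Delta) (p : ℕ) (hp : p.Prime) (h : (p : ℤ) ∣ tau p) (n : ℕ)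
    (hn : n < p ^ 2) (hpn : p ∣ n) : (p : ℤ) ∣ tau n := by
  obtain ⟨m, rfl⟩ := hpn
  rw [hd.hecke p hp m]
  have hm : m < p := by
    rw [pow_two] at hn
    exact lt_of_mul_lt_mul_left hn (Nat.zero_le p)
  split_ifs with hc
  · have : m = 0 := Nat.eq_zero_of_dvd_of_lt hc hm
    subst this
    simp [tau_zero]
  · rw [sub_zero]
    exact h.mul_right _

theorem RD_ne_zero : RD ≠ 0 := by
  intro h
  have h1 := congrArg (fun f : Polynomial ℤ => f.eval 1) h
  simp only [RD, Polynomial.eval_mul, Polynomial.eval_sub, Polynomial.eval_add,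
    Polynomial.eval_pow, Polynomial.eval_X, Polynomial.eval_one, Polynomial.eval_ofNat,
    Polynomial.eval_zero] at h1
  norm_num at h1

theorem RD_natDegree : RD.natDegree ≤ 10 + 2 := by
  unfold RD
  have : (Polynomial.X * (1 - 4 * Polynomial.X) * (1 - 8 * Polynomial.X) ^ 2 *
    (1 - 24 * (Polynomial.X * (1 - 4 * Polynomial.X)) +
      384 * (Polynomial.X * (1 - 4 * Polynomial.X)) ^ 2 -
      2048 * (Polynomial.X * (1 - 4 * Polynomial.X)) ^ 3) : Polynomial ℤ).natDegree ≤ 10 := by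
    compute_degree
  omega

open Classical in
theorem tau_log (hm : S_Main) (hd : Delta) :
    ∃ c : ℝ, 0 < c ∧ ∃ x0 : ℕ, ∀ x : ℕ, x0 ≤ x → c * x ≤
      ∑ p ∈ (Finset.range (x + 1)).filter (fun p : ℕ => p.Prime ∧ ¬ (p : ℤ) ∣ tau p),
        Real.log p := by
  have key := hm 10 RD (fun n => if Odd n then tau n else 0) (fun p : ℕ => ¬ (p : ℤ) ∣ tau p)
    (by norm_num) RD_ne_zero RD_natDegree ?_ ?_ ?_
  · obtain ⟨c, hc, x0, h⟩ := key
    refine ⟨c, hc, x0, fun x hx => (h x hx).trans (le_of_eq ?_)⟩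
    exact Finset.sum_congr (by ext p; simp only [Finset.mem_filter]) fun _ _ => rfl
  · intro n
    have h := congrArg (coeff n) hd.odd_part
    rw [coeff_mk] at h
    rw [show (10 + 2 : ℕ) = 12 from rfl, ← h]
    split_ifs <;> simp
  · intro n hn
    exact if_neg (Nat.not_odd_iff_even.2 hn)
  · intro p hp hP n hn hpn
    rw [not_not] at hP
    show (p : ℤ) ∣ if Odd n then tau n else 0
    split_ifs
    · exact hecke_dvd hd p hp hP n hn hpn
    · exact dvd_zero _

open Classical in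
/-- the primes `p ≤ x` which do not divide `τ(p)` -/
noncomputable def ordPrimes (x : ℕ) : Finset ℕ :=
  (Finset.range (x + 1)).filter fun p : ℕ => p.Prime ∧ ¬ (p : ℤ) ∣ tau p

theorem log_to_count (O : ℕ → Prop) [DecidablePred O]
    (h : ∃ c : ℝ, 0 < c ∧ ∃ x0 : ℕ, ∀ x : ℕ, x0 ≤ x → c * x ≤
      ∑ p ∈ (Finset.range (x + 1)).filter (fun p => p.Prime ∧ O p), Real.log p) :
    ∃ c : ℝ, 0 < c ∧ ∃ x0 : ℕ, ∀ x : ℕ, x0 ≤ x → c * (Nat.primeCounting x : ℝ) ≤
      ((Finset.range (x + 1)).filter (fun p => p.Prime ∧ O p)).card := by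
  obtain ⟨c, hc, x0, h⟩ := h
  have hpi := Chebyshev.eventually_primeCounting_le (ε := 1 / 2) (by norm_num)
  rw [Filter.eventually_atTop] at hpi
  obtain ⟨y0, hy⟩ := hpi
  refine ⟨c / 2, by positivity, max (max x0 2) ⌈y0⌉₊, fun x hx => ?_⟩
  have hx0 : x0 ≤ x := le_trans (le_trans (le_max_left _ _) (le_max_left _ _)) hx
  have hx2 : 2 ≤ x := le_trans (le_trans (le_max_right _ _) (le_max_left _ _)) hx
  have hxy : y0 ≤ (x : ℝ) := le_trans (Nat.le_ceil y0) (by exact_mod_cast le_trans (le_max_right _ _) hx)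
  have hx2' : (2 : ℝ) ≤ x := by exact_mod_cast hx2
  have hlog : 0 < Real.log x := Real.log_pos (by linarith)
  have h1 := hy x hxy
  rw [Nat.floor_natCast] at h1
  have h4 : Real.log 4 + 1 / 2 ≤ 2 := by
    have : Real.log 4 = 2 * Real.log 2 := by
      rw [show (4 : ℝ) = 2 ^ 2 by norm_num, Real.log_pow]; norm_num
    have := Real.log_two_lt_d9
    linarith
  have h2 : (Nat.primeCounting x : ℝ) * Real.log x ≤ 2 * x := by
    have h3 : (Nat.primeCounting x : ℝ) * Real.log x ≤ (Real.log 4 + 1 / 2) * x := by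
      calc (Nat.primeCounting x : ℝ) * Real.log x
          ≤ ((Real.log 4 + 1 / 2) * x / Real.log x) * Real.log x :=
            mul_le_mul_of_nonneg_right h1 hlog.le
        _ = (Real.log 4 + 1 / 2) * x := by field_simp
    nlinarith
  have h5 : c * x ≤
      ((Finset.range (x + 1)).filter (fun p => p.Prime ∧ O p)).card * Real.log x := by
    refine (h x hx0).trans ?_
    rw [← nsmul_eq_mul]
    refine Finset.sum_le_card_nsmul _ _ _ fun p hp => ?_
    rw [Finset.mem_filter, Finset.mem_range] at hp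
    have : (0 : ℝ) < p := by exact_mod_cast hp.2.1.pos
    exact Real.log_le_log this (by exact_mod_cast Nat.lt_succ_iff.1 hp.1)
  have h6 : c / 2 * (Nat.primeCounting x : ℝ) * Real.log x ≤
      ((Finset.range (x + 1)).filter (fun p => p.Prime ∧ O p)).card * Real.log x := by
    refine le_trans ?_ h5
    nlinarith
  exact le_of_mul_le_mul_right h6 hlog

theorem tau_count (hm : S_Main) (hd : Delta) :
    ∃ c : ℝ, 0 < c ∧ ∃ x0 : ℕ, ∀ x : ℕ, x0 ≤ x →
      c * (Nat.primeCounting x : ℝ) ≤ (ordPrimes x).card := by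
  classical
  exact log_to_count (fun p : ℕ => ¬ (p : ℤ) ∣ tau p) (tau_log hm hd)

/-- divisibility of `τ(n)` in terms of the discriminant of Mathlib -/
theorem disc_dvd_iff (hd : Delta) (d n : ℕ) :
    (∃ m : ℤ, (UpperHalfPlane.qExpansion 1 CuspForm.discriminant).coeff n = (d : ℂ) * m) ↔
      (d : ℤ) ∣ tau n := by
  rw [hd.disc n]
  constructor
  · rintro ⟨m, hm⟩
    exact ⟨m, by exact_mod_cast hm⟩
  · rintro ⟨m, hm⟩
    exact ⟨m, by rw [hm]; push_cast; ring⟩

/-- there are infinitely many primes `p` with `p ∤ τ(p)` -/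
theorem tau_infinite (hm : S_Main) (hd : Delta) :
    {p : ℕ | p.Prime ∧ ¬ (p : ℤ) ∣ tau p}.Infinite := by
  classical
  obtain ⟨c, hc, x0, h⟩ := tau_log hm hd
  intro hfin
  set S := hfin.toFinset with hS
  have hbd : ∀ x : ℕ, x0 ≤ x → c * x ≤ ∑ p ∈ S, Real.log p := by
    intro x hx
    refine (h x hx).trans (Finset.sum_le_sum_of_subset_of_nonneg ?_ ?_)
    · intro p hp
      rw [Finset.mem_filter] at hp
      rw [hS, Set.Finite.mem_toFinset]
      exact hp.2
    · intro p hp _
      exact Real.log_natCast_nonneg p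
  obtain ⟨n, hn⟩ := exists_nat_gt ((∑ p ∈ S, Real.log p) / c)
  have h1 := hbd (max n x0) (le_max_right _ _)
  have h2 : (n : ℝ) ≤ ((max n x0 : ℕ) : ℝ) := by exact_mod_cast le_max_left _ _
  rw [div_lt_iff₀ hc] at hn
  nlinarith

end Run7.h323.OD
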