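import Pool.Agent.Run7.h809.OD.Defs
import Pool.Agent.V11172.DsA

/-!
The two identities of the arithmetic-geometric mean for `φ = ∑ q^(n²)`:
`φ² + φ(-q)² = 2 φ(q²)²` and `φ φ(-q) = φ(-q²)²`.
-/

set_option autoImplicit false

namespace Run7.h323.OD

open PowerSeries H809.OD Pool.Agent.Helper308.QS Pool.Agent.V11172.Ds

theorem coeff_even (c : ℤ → ℤ) (hc : ∀ i, c (-i) = c i) (h0 : c 0 = 1) (n : ℕ) :
    coeff n (th c eS) =
      if n = 0 then 1 else if IsSquare n then 2 * c (Nat.sqrt n) else 0 := by
  rw [split_half c hc h0, map_add, two_mul, map_add, coeff_th gS n (B := n + 1) le_rfl]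
  rcases Nat.eq_zero_or_pos n with rfl | hn
  · rw [if_pos rfl, Finset.sum_eq_zero]
    · simp
    · intro i _
      split_ifs with h1 h2
      · exfalso
        unfold eS at h1
        have : i = 0 := by simpa using h1
        omega
      · rfl
      · rfl
  · rw [if_neg hn.ne', coeff_one, if_neg hn.ne']
    split_ifs with hs
    · obtain ⟨m, rfl⟩ := hs
      have hm : 0 < m := by
        rcases Nat.eq_zero_or_pos m with rfl | h
        · simp at hn
        · exact h
      rw [Nat.sqrt_eq]
      have hsum : (∑ i ∈ Finset.Icc (-(((m * m : ℕ) : ℤ) + 1)) (((m * m : ℕ) : ℤ) + 1),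
          if eS i = ((m * m : ℕ) : ℤ) then (if 0 < i then c i else 0) else 0) = c m := by
        rw [Finset.sum_eq_single (m : ℤ)]
        · rw [if_pos (by unfold eS; push_cast; ring), if_pos (by exact_mod_cast hm)]
        · intro i _ hi
          split_ifs with h1 h2
          · exfalso
            unfold eS at h1
            push_cast at h1
            have h3 : i ^ 2 = (m : ℤ) ^ 2 := by rw [h1]; ring
            rcases sq_eq_sq_iff_eq_or_eq_neg.1 h3 with h | h
            · exact hi h
            · rw [h] at h2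
              have : (0 : ℤ) < m := by exact_mod_cast hm
              linarith
          · rfl
          · rfl
        · intro h
          exfalso
          apply h
          rw [Finset.mem_Icc]
          have h1 : (m : ℤ) ≤ m * m := by
            have : (1 : ℤ) ≤ m := by exact_mod_cast hm
            nlinarith
          push_cast
          constructor
          · have : (0 : ℤ) ≤ (m : ℤ) * m := by positivity
            have : (0 : ℤ) ≤ (m : ℤ) := by positivity
            linarith
          · linarith
      rw [hsum]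
      ring
    · rw [Finset.sum_eq_zero]
      · simp
      · intro i _
        split_ifs with h1 h2
        · exfalso
          apply hs
          refine ⟨i.natAbs, ?_⟩
          unfold eS at h1
          have h3 : ((i.natAbs * i.natAbs : ℕ) : ℤ) = i ^ 2 := by
            push_cast
            rw [← sq, sq_abs]
          have h4 : ((i.natAbs * i.natAbs : ℕ) : ℤ) = (n : ℤ) := by rw [h3, h1]
          exact_mod_cast h4.symm
        · rfl
        · rfl

theorem map_Phip : PowerSeries.map (Int.castRingHom ℚ) Phip = phi := by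
  ext n
  rw [coeff_map, Phip, coeff_even _ (fun _ => rfl) rfl, phi, coeff_mk]
  split_ifs <;> simp

theorem map_Phi : PowerSeries.map (Int.castRingHom ℚ) Phi = ng phi := by
  ext n
  rw [coeff_map, Phi, coeff_even _ sg_neg sg_zero, ng, coeff_rescale, phi, coeff_mk]
  split_ifs with h1 h2
  · simp [h1]
  · obtain ⟨m, rfl⟩ := h2
    rw [Nat.sqrt_eq]
    have h3 : ((-1 : ℚ)) ^ (m * m) = ((sg (m : ℤ) : ℤ) : ℚ) := by
      unfold sg
      by_cases he : Even m
      · rw [if_pos (by exact_mod_cast he), (he.mul_right m).neg_one_pow]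
        simp
      · rw [if_neg (by
          intro h
          exact he (by exact_mod_cast h))]
        have ho : Odd m := Nat.not_even_iff_odd.1 he
        rw [(ho.mul ho).neg_one_pow]
        simp
    rw [h3]
    simp [mul_comm]
  · simp

theorem AG2 : phi * ng phi = dbl (ng phi) ^ 2 := by
  have h := congrArg (PowerSeries.map (Int.castRingHom ℚ)) phi_mul
  rw [map_mul, map_pow, PowerSeries.map_expand, map_Phip, map_Phi] at h
  exact h

theorem eq_zero_of_dbl {D : ℚ⟦X⟧} {c : ℚ} (hc : c ≠ 1) (h : D = C c * dbl D) : D = 0 := by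
  have key : ∀ n : ℕ, coeff n D = 0 := by
    intro n
    induction n using Nat.strong_induction_on with
    | _ n ih =>
      have h1 := congrArg (coeff n) h
      rw [coeff_C_mul, dbl, coeff_expand] at h1
      split_ifs at h1 with h2
      · rcases Nat.eq_zero_or_pos n with rfl | hn
        · have h3 : (1 - c) * coeff 0 D = 0 := by
            simp only [Nat.zero_div] at h1
            linear_combination h1
          rcases mul_eq_zero.1 h3 with h4 | h4
          · exact absurd (by linarith) hc
          · exact h4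
        · rw [h1, ih (n / 2) (Nat.div_lt_self hn (by norm_num)), mul_zero]
      · rw [h1, mul_zero]
  ext n
  rw [key n, map_zero]

theorem expand_four (t : ℚ⟦X⟧) : expand 4 four_ne_zero t = dbl (dbl t) := by
  ext n
  rw [dbl, coeff_expand, coeff_expand]
  by_cases h2 : 2 ∣ n
  · obtain ⟨m, rfl⟩ := h2
    rw [if_pos (dvd_mul_right 2 m), Nat.mul_div_cancel_left _ (by norm_num), coeff_expand]
    by_cases h4 : 2 ∣ m
    · obtain ⟨k, rfl⟩ := h4
      rw [if_pos (dvd_mul_right 2 k), Nat.mul_div_cancel_left _ (by norm_num),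
        if_pos ⟨k, by ring⟩, show 2 * (2 * k) / 4 = k by omega]
    · rw [if_neg h4, if_neg]
      omega
  · rw [if_neg h2, if_neg]
    omega

theorem pa_aux {A : Type*} [CommRing A] {a b e s t : A} (h1 : a = 1 + 2 * t) (h2 : b = 1 + 2 * s)
    (h : t + s = 2 * e) : a + b = 2 * (1 + 2 * e) := by
  rw [h1, h2]
  linear_combination 2 * h

theorem phi_add : phi + ng phi = 2 * dbl (dbl phi) := by
  have h := congrArg (PowerSeries.map (Int.castRingHom ℚ)) T_add_S
  rw [map_add, map_mul, PowerSeries.map_expand, expand_four] at h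
  have h1 := congrArg (PowerSeries.map (Int.castRingHom ℚ)) Phip_eq
  have h2 := congrArg (PowerSeries.map (Int.castRingHom ℚ)) Phi_eq
  rw [map_Phip, map_add, map_one, map_mul] at h1
  rw [map_Phi, map_add, map_one, map_mul] at h2
  have e2 : PowerSeries.map (Int.castRingHom ℚ) (2 : ℤ⟦X⟧) = 2 := map_ofNat _ 2
  rw [e2] at h h1 h2
  have h3 : dbl (dbl phi) = 1 + 2 * dbl (dbl (PowerSeries.map (Int.castRingHom ℚ) T)) := by
    rw [h1, map_add, map_add, map_mul, map_mul, map_one, map_one, map_ofNat, map_ofNat]
  rw [h3]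
  exact pa_aux h1 h2 h

theorem ag1_aux {A : Type*} [CommRing A] {a b p q r : A} (h1 : a + b = 2 * r) (h2 : a * b = q ^ 2) :
    a ^ 2 + b ^ 2 - 2 * p ^ 2 = -2 * (p ^ 2 + q ^ 2 - 2 * r ^ 2) := by
  linear_combination (a + b + 2 * r) * h1 - 2 * h2

theorem C_neg_two : (C (-2 : ℚ) : ℚ⟦X⟧) = -2 := by
  have h : (C (-2 : ℚ) : ℚ⟦X⟧) + C (2 : ℚ) = 0 := by
    rw [← map_add, neg_add_cancel, map_zero]
  have h2 : (C (2 : ℚ) : ℚ⟦X⟧) = 2 := map_ofNat _ 2
  rw [h2] at h
  exact eq_neg_of_add_eq_zero_left h

theorem AG1 : phi ^ 2 + ng phi ^ 2 = 2 * dbl phi ^ 2 := by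
  have h := ag1_aux (p := dbl phi) phi_add AG2
  have e : dbl (phi ^ 2 + ng phi ^ 2 - 2 * dbl phi ^ 2) =
      dbl phi ^ 2 + dbl (ng phi) ^ 2 - 2 * dbl (dbl phi) ^ 2 := by
    rw [map_sub, map_add, map_mul, map_pow, map_pow, map_pow, map_ofNat]
  rw [← e, ← C_neg_two] at h
  exact sub_eq_zero.1 (eq_zero_of_dbl (by norm_num) h)

end Run7.h323.OD
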